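import Mathlib

set_option autoImplicit false

/-!
# Extremal point-line configurations without lattice structure

The points and the lines have coordinates in boxes of the ring `ℤ[√2]`.
-/

namespace Pool.Agent.Results.MP_fad2aa_co.NoLatticeStructure

open Finset

/-- The plane. -/
abbrev Plane := ℝ × ℝ

/-- A straight line of the plane, as a set of points. -/
def IsLine (l : Set Plane) : Prop :=
  ∃ a b c : ℝ, (a ≠ 0 ∨ b ≠ 0) ∧ l = {p | a * p.1 + b * p.2 = c}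

/-- The number of incidences. -/
noncomputable def incidences (P : Finset Plane) (L : Finset (Set Plane)) : ℕ :=
  {z : Plane × Set Plane | z.1 ∈ P ∧ z.2 ∈ L ∧ z.1 ∈ z.2}.ncard

/-- Homogeneous coordinates of the image of the point `p` under the projective transformation with
matrix `M`. -/
def imageVec (M : Matrix (Fin 3) (Fin 3) ℝ) (p : Plane) : Fin 3 → ℝ := M.mulVec ![p.1, p.2, 1]

/-- Some projective transformation of the real projective plane (given by an invertible matrix)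
sends no point of `X` to the line at infinity and maps `X` into a lattice section
`{1, …, a} × {1, …, b}` with `a * b ≤ s`. -/
def InLatticeSection (X : Finset Plane) (s : ℝ) : Prop :=
  ∃ M : Matrix (Fin 3) (Fin 3) ℝ, M.det ≠ 0 ∧ ∃ a b : ℕ, (a : ℝ) * b ≤ s ∧
    ∀ p ∈ X, imageVec M p 2 ≠ 0 ∧ ∃ i j : ℕ, 1 ≤ i ∧ i ≤ a ∧ 1 ≤ j ∧ j ≤ b ∧
      imageVec M p 0 / imageVec M p 2 = i ∧ imageVec M p 1 / imageVec M p 2 = j

/-- The non-vertical line `y = s x - t` whose dual point is `(s, t)`. -/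
def dualLine (d : Plane) : Set Plane := {p | p.2 = d.1 * p.1 - d.2}

/-- The conclusion of Q1 for the point set `P` and the line set `L`: a proportion at least `c` of
the points (alternative (a)) or of the dual points of the lines (alternative (b)) is projectively
equivalent to a subset of a lattice section whose size is at most `C` times the number of points
(respectively of lines). -/
def HasLatticeStructure (c C : ℝ) (P : Finset Plane) (L : Finset (Set Plane)) : Prop :=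
  (∃ P' ⊆ P, c * P.card ≤ P'.card ∧ InLatticeSection P' (C * P.card)) ∨
  (∃ D : Finset Plane, (∀ d ∈ D, dualLine d ∈ L) ∧ c * L.card ≤ D.card ∧
    InLatticeSection D (C * L.card))

/-! ### Rows of points of `ℤ[√2]` -/

theorem int_sqrt2 {p q : ℤ} (h : (p : ℝ) + q * Real.sqrt 2 = 0) : p = 0 ∧ q = 0 := by
  by_cases hq : q = 0
  · subst hq
    simp at h
    exact ⟨h, rfl⟩
  · exfalso
    have hirr := irrational_sqrt_two
    apply hirr
    refine ⟨-(p : ℚ) / q, ?_⟩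
    have hq' : (q : ℝ) ≠ 0 := by exact_mod_cast hq
    push_cast
    field_simp
    linarith

/-- `a + b √2` -/
noncomputable def e (a b : ℤ) : ℝ := a + b * Real.sqrt 2

theorem e_inj {a b a' b' : ℤ} (h : e a b = e a' b') : a = a' ∧ b = b' := by
  unfold e at h
  have := int_sqrt2 (p := a - a') (q := b - b') (by push_cast; linarith)
  omega

/-- If a nonconstant fractional linear map takes integer values at three points of one column and
at a fourth point, then the fourth point is in the same column. -/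
theorem column {α β γ δ : ℝ} (hdet : α * δ - β * γ ≠ 0) {a₀ a b₁ b₂ b₃ b : ℤ}
    {k₁ k₂ k₃ k : ℤ}
    (w₁ : γ * e a₀ b₁ + δ ≠ 0) (w₂ : γ * e a₀ b₂ + δ ≠ 0) (w₃ : γ * e a₀ b₃ + δ ≠ 0)
    (w : γ * e a b + δ ≠ 0)
    (h₁ : α * e a₀ b₁ + β = k₁ * (γ * e a₀ b₁ + δ))
    (h₂ : α * e a₀ b₂ + β = k₂ * (γ * e a₀ b₂ + δ))
    (h₃ : α * e a₀ b₃ + β = k₃ * (γ * e a₀ b₃ + δ))
    (h : α * e a b + β = k * (γ * e a b + δ))
    (h12 : b₁ ≠ b₂) (h13 : b₁ ≠ b₃) (h23 : b₂ ≠ b₃) : a = a₀ := by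
  by_contra hne
  -- differences of values
  have diff : ∀ (x y kx ky : ℝ), γ * x + δ ≠ 0 → γ * y + δ ≠ 0 → α * x + β = kx * (γ * x + δ) →
      α * y + β = ky * (γ * y + δ) →
      (kx - ky) * ((γ * x + δ) * (γ * y + δ)) = (α * δ - β * γ) * (x - y) := by
    intro x y kx ky _ _ hx hy
    have e1 : kx * (γ * x + δ) * (γ * y + δ) = (α * x + β) * (γ * y + δ) := by rw [hx]
    have e2 : ky * (γ * y + δ) * (γ * x + δ) = (α * y + β) * (γ * x + δ) := by rw [hy]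
    linear_combination e1 - e2
  set x₁ := e a₀ b₁
  set x₂ := e a₀ b₂
  set x₃ := e a₀ b₃
  set x := e a b
  have d13 := diff x₁ x₃ k₁ k₃ w₁ w₃ h₁ h₃
  have d2 := diff x₂ x k₂ k w₂ w h₂ h
  have d1 := diff x₁ x k₁ k w₁ w h₁ h
  have d23 := diff x₂ x₃ k₂ k₃ w₂ w₃ h₂ h₃
  set D := α * δ - β * γ
  set W := (γ * x₁ + δ) * (γ * x₂ + δ) * (γ * x₃ + δ) * (γ * x + δ)
  have hW : W ≠ 0 := mul_ne_zero (mul_ne_zero (mul_ne_zero w₁ w₂) w₃) w
  -- the cross ratio equation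
  have cr : ((k₁ - k₃) * (k₂ - k) : ℝ) * ((x₁ - x) * (x₂ - x₃)) =
      ((k₁ - k) * (k₂ - k₃) : ℝ) * ((x₁ - x₃) * (x₂ - x)) := by
    have e1 : ((k₁ - k₃) * (k₂ - k) : ℝ) * W = D ^ 2 * ((x₁ - x₃) * (x₂ - x)) := by
      calc ((k₁ - k₃) * (k₂ - k) : ℝ) * W =
          ((k₁ - k₃) * ((γ * x₁ + δ) * (γ * x₃ + δ))) *
            ((k₂ - k) * ((γ * x₂ + δ) * (γ * x + δ))) := by ring
        _ = _ := by rw [d13, d2]; ring
    have e2 : ((k₁ - k) * (k₂ - k₃) : ℝ) * W = D ^ 2 * ((x₁ - x) * (x₂ - x₃)) := by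
      calc ((k₁ - k) * (k₂ - k₃) : ℝ) * W =
          ((k₁ - k) * ((γ * x₁ + δ) * (γ * x + δ))) *
            ((k₂ - k₃) * ((γ * x₂ + δ) * (γ * x₃ + δ))) := by ring
        _ = _ := by rw [d1, d23]; ring
    apply mul_left_cancel₀ (mul_ne_zero hW (pow_ne_zero 2 hdet))
    calc W * D ^ 2 * (((k₁ - k₃) * (k₂ - k) : ℝ) * ((x₁ - x) * (x₂ - x₃)))
        = (((k₁ - k₃) * (k₂ - k) : ℝ) * W) * (D ^ 2 * ((x₁ - x) * (x₂ - x₃))) := by ring
      _ = (D ^ 2 * ((x₁ - x₃) * (x₂ - x))) * (((k₁ - k) * (k₂ - k₃) : ℝ) * W) := by rw [e1, e2]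
      _ = _ := by ring
  set G : ℤ := (k₁ - k₃) * (k₂ - k) with hG
  set G' : ℤ := (k₁ - k) * (k₂ - k₃) with hG'
  have s2 : Real.sqrt 2 * Real.sqrt 2 = 2 := Real.mul_self_sqrt (by norm_num)
  have s0 : Real.sqrt 2 ≠ 0 := by positivity
  have cr2 : (((a₀ - a) * (G * (b₂ - b₃) - G' * (b₁ - b₃)) : ℤ) : ℝ) +
      ((G * (b₂ - b₃) * (b₁ - b) - G' * (b₁ - b₃) * (b₂ - b) : ℤ) : ℝ) * Real.sqrt 2 = 0 := by
    have hx1 : x₁ - x = (a₀ - a) + (b₁ - b) * Real.sqrt 2 := by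
      simp only [x₁, x, e]; ring
    have hx2 : x₂ - x₃ = (b₂ - b₃) * Real.sqrt 2 := by
      simp only [x₂, x₃, e]; ring
    have hx3 : x₁ - x₃ = (b₁ - b₃) * Real.sqrt 2 := by
      simp only [x₁, x₃, e]; ring
    have hx4 : x₂ - x = (a₀ - a) + (b₂ - b) * Real.sqrt 2 := by
      simp only [x₂, x, e]; ring
    have hGr : ((k₁ - k₃) * (k₂ - k) : ℝ) = (G : ℝ) := by rw [hG]; push_cast; ring
    have hGr' : ((k₁ - k) * (k₂ - k₃) : ℝ) = (G' : ℝ) := by rw [hG']; push_cast; ring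
    rw [hGr, hGr', hx1, hx2, hx3, hx4] at cr
    apply mul_left_cancel₀ s0
    push_cast
    linear_combination cr
  obtain ⟨p0, q0⟩ := int_sqrt2 cr2
  have ha : a₀ - a ≠ 0 := sub_ne_zero.2 (fun h => hne h.symm)
  have hp : G * (b₂ - b₃) - G' * (b₁ - b₃) = 0 := by
    rcases mul_eq_zero.1 p0 with h | h
    · exact absurd h ha
    · exact h
  have hq : G * (b₂ - b₃) * (b₁ - b₂) = 0 := by
    linear_combination q0 - (b₂ - b) * hp
  have hG0 : G = 0 := by
    rcases mul_eq_zero.1 hq with h | h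
    · rcases mul_eq_zero.1 h with h | h
      · exact h
      · exact absurd (by omega) h23
    · exact absurd (by omega) h12
  rw [hG] at hG0
  rcases mul_eq_zero.1 hG0 with h0 | h0
  · have : (k₁ : ℝ) - k₃ = 0 := by exact_mod_cast h0
    rw [this, zero_mul] at d13
    have h5 : x₁ - x₃ = 0 := by
      rcases mul_eq_zero.1 d13.symm with h | h
      · exact absurd h hdet
      · exact h
    exact h13 (e_inj (sub_eq_zero.1 h5)).2
  · have : (k₂ : ℝ) - k = 0 := by exact_mod_cast h0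
    rw [this, zero_mul] at d2
    have h5 : x₂ - x = 0 := by
      rcases mul_eq_zero.1 d2.symm with h | h
      · exact absurd h hdet
      · exact h
    exact hne (e_inj (sub_eq_zero.1 h5)).1.symm

/-- The box of pairs of integers between `0` and `n - 1`. -/
noncomputable def box (n : ℕ) : Finset (ℤ × ℤ) := Finset.Ico (0 : ℤ) n ×ˢ Finset.Ico (0 : ℤ) n

theorem mem_box {n : ℕ} {z : ℤ × ℤ} : z ∈ box n ↔ (0 ≤ z.1 ∧ z.1 < n) ∧ (0 ≤ z.2 ∧ z.2 < n) := by
  simp [box]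

theorem card_box (n : ℕ) : (box n).card = n * n := by
  simp [box]

theorem imageVec_apply (M : Matrix (Fin 3) (Fin 3) ℝ) (p : Plane) (i : Fin 3) :
    imageVec M p i = M i 0 * p.1 + (M i 1 * p.2 + M i 2) := by
  simp [imageVec, Matrix.mulVec, dotProduct, Fin.sum_univ_three]
  ring

/-- A row of points of a box of `ℤ[√2]` which is projectively equivalent to lattice points has at
most `2 N` elements. -/
theorem row_bound {X : Finset Plane} {s : ℝ} (hX : InLatticeSection X s) (y : ℝ) (N : ℕ)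
    (R : Finset (ℤ × ℤ)) (hR : R ⊆ box N) (hRX : ∀ z ∈ R, (e z.1 z.2, y) ∈ X) :
    R.card ≤ 2 * N := by
  obtain ⟨M, hM, a, b, -, hint⟩ := hX
  by_contra hcard
  rw [not_le] at hcard
  have hne : R.Nonempty := by
    rw [← Finset.card_pos]; omega
  -- a nonconstant fractional linear map with integer values
  obtain ⟨i, hi1, hi2⟩ : ∃ i : Fin 3, (M i 0 * (M 2 1 * y + M 2 2) - (M i 1 * y + M i 2) * M 2 0 ≠ 0)
      ∧ ∀ z ∈ R, ∃ k : ℤ, M i 0 * e z.1 z.2 + (M i 1 * y + M i 2) =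
        k * (M 2 0 * e z.1 z.2 + (M 2 1 * y + M 2 2)) := by
    by_cases h0 : M 0 0 * (M 2 1 * y + M 2 2) - (M 0 1 * y + M 0 2) * M 2 0 = 0
    · by_cases h1 : M 1 0 * (M 2 1 * y + M 2 2) - (M 1 1 * y + M 1 2) * M 2 0 = 0
      · exfalso
        apply hM
        obtain ⟨z, hz⟩ := hne
        have hw := (hint _ (hRX z hz)).1
        rw [imageVec_apply] at hw
        simp only at hw
        rw [Matrix.det_fin_three]
        by_cases hg : M 2 0 = 0
        · rw [hg] at h0 h1 hw ⊢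
          have hd : M 2 1 * y + M 2 2 ≠ 0 := by
            intro hh; apply hw; rw [hh]; ring
          have h0' : M 0 0 = 0 := by
            have : M 0 0 * (M 2 1 * y + M 2 2) = 0 := by linarith
            exact (mul_eq_zero.1 this).resolve_right hd
          have h1' : M 1 0 = 0 := by
            have : M 1 0 * (M 2 1 * y + M 2 2) = 0 := by linarith
            exact (mul_eq_zero.1 this).resolve_right hd
          rw [h0', h1']; ring
        · have key : M 2 0 * (M 0 0 * M 1 1 * M 2 2 - M 0 0 * M 1 2 * M 2 1 - M 0 1 * M 1 0 * M 2 2 +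
              M 0 1 * M 1 2 * M 2 0 + M 0 2 * M 1 0 * M 2 1 - M 0 2 * M 1 1 * M 2 0) = 0 := by
            linear_combination (M 1 1 * M 2 0 - M 1 0 * M 2 1) * h0 +
              (M 0 0 * M 2 1 - M 0 1 * M 2 0) * h1
          exact (mul_eq_zero.1 key).resolve_left hg
      · refine ⟨1, h1, fun z hz => ?_⟩
        obtain ⟨hw, i, j, -, -, -, -, -, hj⟩ := hint _ (hRX z hz)
        rw [imageVec_apply] at hw
        rw [imageVec_apply, imageVec_apply] at hj
        rw [div_eq_iff hw] at hj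
        exact ⟨j, by simpa using hj⟩
    · refine ⟨0, h0, fun z hz => ?_⟩
      obtain ⟨hw, i, j, -, -, -, -, hi, -⟩ := hint _ (hRX z hz)
      rw [imageVec_apply] at hw
      rw [imageVec_apply, imageVec_apply] at hi
      rw [div_eq_iff hw] at hi
      exact ⟨i, by simpa using hi⟩
  have hwne : ∀ z ∈ R, M 2 0 * e z.1 z.2 + (M 2 1 * y + M 2 2) ≠ 0 := by
    intro z hz
    have hw := (hint _ (hRX z hz)).1
    rw [imageVec_apply] at hw
    exact hw
  -- three points in one column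
  obtain ⟨a₀, -, ha₀⟩ : ∃ a₀ ∈ Finset.Ico (0 : ℤ) N, 2 < (R.filter (fun z => z.1 = a₀)).card := by
    apply Finset.exists_lt_card_fiber_of_mul_lt_card_of_maps_to
    · intro z hz
      have := mem_box.1 (hR hz)
      exact Finset.mem_Ico.2 this.1
    · simp only [Int.card_Ico, sub_zero, Int.toNat_natCast]
      omega
  obtain ⟨z₁, z₂, z₃, h₁, h₂, h₃, h12, h13, h23⟩ := Finset.two_lt_card_iff.1 ha₀
  rw [Finset.mem_filter] at h₁ h₂ h₃
  have hall : ∀ z ∈ R, z.1 = a₀ := by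
    intro z hz
    obtain ⟨k₁, e₁⟩ := hi2 z₁ h₁.1
    obtain ⟨k₂, e₂⟩ := hi2 z₂ h₂.1
    obtain ⟨k₃, e₃⟩ := hi2 z₃ h₃.1
    obtain ⟨k, e₄⟩ := hi2 z hz
    have w₁ := hwne z₁ h₁.1
    have w₂ := hwne z₂ h₂.1
    have w₃ := hwne z₃ h₃.1
    have w₄ := hwne z hz
    rw [h₁.2] at e₁ w₁
    rw [h₂.2] at e₂ w₂
    rw [h₃.2] at e₃ w₃
    refine column (hi1) w₁ w₂ w₃ w₄ e₁ e₂ e₃ e₄ ?_ ?_ ?_
    · intro hh; exact h12 (Prod.ext (h₁.2.trans h₂.2.symm) hh)
    · intro hh; exact h13 (Prod.ext (h₁.2.trans h₃.2.symm) hh)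
    · intro hh; exact h23 (Prod.ext (h₂.2.trans h₃.2.symm) hh)
  have hle : R.card ≤ (Finset.Ico (0 : ℤ) N).card := by
    apply Finset.card_le_card_of_injOn (fun z => z.2)
    · intro z hz
      have := mem_box.1 (hR hz)
      exact Finset.mem_coe.2 (Finset.mem_Ico.2 this.2)
    · intro z hz z' hz' hh
      exact Prod.ext ((hall z hz).trans (hall z' hz').symm) hh
  simp only [Int.card_Ico, sub_zero, Int.toNat_natCast] at hle
  omega

/-- A set of points with first coordinates in a box of `ℤ[√2]` which is projectively equivalent to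
lattice points is small. -/
theorem dense_fails {β : Type} [DecidableEq β] {X : Finset Plane} {s : ℝ}
    (hX : InLatticeSection X s) (N : ℕ) (Y : Finset β) (f : β → ℝ)
    (Q : Finset ((ℤ × ℤ) × β)) (hQ : Q ⊆ box N ×ˢ Y)
    (hQX : ∀ z ∈ Q, (e z.1.1 z.1.2, f z.2) ∈ X) :
    Q.card ≤ 2 * N * Y.card := by
  have hmaps : ∀ z ∈ Q, z.2 ∈ Y := fun z hz => (Finset.mem_product.1 (hQ hz)).2
  rw [Finset.card_eq_sum_card_fiberwise hmaps]
  have : ∀ y ∈ Y, (Q.filter (fun z => z.2 = y)).card ≤ 2 * N := by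
    intro y _
    have h1 : (Q.filter (fun z => z.2 = y)).card =
        ((Q.filter (fun z => z.2 = y)).image Prod.fst).card := by
      rw [Finset.card_image_of_injOn]
      intro z hz z' hz' hh
      have a1 := (Finset.mem_filter.1 (Finset.mem_coe.1 hz)).2
      have a2 := (Finset.mem_filter.1 (Finset.mem_coe.1 hz')).2
      exact Prod.ext hh (a1.trans a2.symm)
    rw [h1]
    apply row_bound hX (f y) N
    · intro x hx
      obtain ⟨z, hz, rfl⟩ := Finset.mem_image.1 hx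
      exact (Finset.mem_product.1 (hQ (Finset.mem_filter.1 hz).1)).1
    · intro x hx
      obtain ⟨z, hz, rfl⟩ := Finset.mem_image.1 hx
      have hz' := Finset.mem_filter.1 hz
      have := hQX z hz'.1
      rw [hz'.2] at this
      exact this
  calc ∑ y ∈ Y, (Q.filter (fun z => z.2 = y)).card ≤ ∑ _y ∈ Y, 2 * N := Finset.sum_le_sum this
    _ = 2 * N * Y.card := by rw [Finset.sum_const, smul_eq_mul, mul_comm]

/-! ### The configuration -/

/-- The line `y = (s₀ + s₁ √2) x + (t₀ + t₁ √2)`. -/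
noncomputable def ln (z : (ℤ × ℤ) × (ℤ × ℤ)) : Set Plane :=
  {p | p.2 = e z.1.1 z.1.2 * p.1 + e z.2.1 z.2.2}

noncomputable def pt (z : (ℤ × ℤ) × (ℤ × ℤ)) : Plane := (e z.1.1 z.1.2, e z.2.1 z.2.2)

theorem pt_inj : Function.Injective pt := by
  rintro ⟨⟨a, b⟩, ⟨c, d⟩⟩ ⟨⟨a', b'⟩, ⟨c', d'⟩⟩ h
  have h1 := e_inj (congrArg Prod.fst h)
  have h2 := e_inj (congrArg Prod.snd h)
  simp only [Prod.mk.injEq]
  exact ⟨h1, h2⟩

theorem slope_eq {s t s' t' : ℝ} (h : {p : Plane | p.2 = s * p.1 + t} = {p | p.2 = s' * p.1 + t'}) :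
    s = s' ∧ t = t' := by
  have h0 : ((0 : ℝ), t) ∈ {p : Plane | p.2 = s * p.1 + t} := by simp
  have h1 : ((1 : ℝ), s + t) ∈ {p : Plane | p.2 = s * p.1 + t} := by simp
  rw [h] at h0 h1
  simp only [Set.mem_ofPred_eq, mul_zero, zero_add, mul_one] at h0 h1
  exact ⟨by linarith, h0⟩

theorem ln_inj : Function.Injective ln := by
  rintro ⟨⟨a, b⟩, ⟨c, d⟩⟩ ⟨⟨a', b'⟩, ⟨c', d'⟩⟩ h
  obtain ⟨h1, h2⟩ := slope_eq h
  have h1 := e_inj h1
  have h2 := e_inj h2
  simp only [Prod.mk.injEq]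
  exact ⟨h1, h2⟩

theorem isLine_ln (z : (ℤ × ℤ) × (ℤ × ℤ)) : IsLine (ln z) := by
  refine ⟨-e z.1.1 z.1.2, 1, e z.2.1 z.2.2, Or.inr one_ne_zero, ?_⟩
  ext p
  simp only [ln, Set.mem_ofPred_eq]
  constructor <;> intro h <;> linarith

noncomputable def PP (N : ℕ) : Finset Plane := (box N ×ˢ box (4 * N ^ 2)).image pt

noncomputable def LL (N : ℕ) : Finset (Set Plane) :=
  open Classical in (box N ×ˢ box (N ^ 2)).image ln

theorem card_PP (N : ℕ) : (PP N).card = 16 * N ^ 6 := by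
  rw [PP, Finset.card_image_of_injective _ pt_inj, Finset.card_product, card_box, card_box]
  ring

theorem card_LL (N : ℕ) : (LL N).card = N ^ 6 := by
  classical
  rw [LL, Finset.card_image_of_injective _ ln_inj, Finset.card_product, card_box, card_box]
  ring

/-- the point of abscissa `x` on the line `z` -/
def ord (x : ℤ × ℤ) (z : (ℤ × ℤ) × (ℤ × ℤ)) : ℤ × ℤ :=
  (z.1.1 * x.1 + 2 * z.1.2 * x.2 + z.2.1, z.1.1 * x.2 + z.1.2 * x.1 + z.2.2)

theorem ord_eq (x : ℤ × ℤ) (z : (ℤ × ℤ) × (ℤ × ℤ)) :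
    e (ord x z).1 (ord x z).2 = e z.1.1 z.1.2 * e x.1 x.2 + e z.2.1 z.2.2 := by
  have s2 : Real.sqrt 2 * Real.sqrt 2 = 2 := Real.mul_self_sqrt (by norm_num)
  simp only [ord, e]
  push_cast
  linear_combination (-(z.1.2 : ℝ) * x.2) * s2

theorem ord_mem {N : ℕ} {x : ℤ × ℤ} {z : (ℤ × ℤ) × (ℤ × ℤ)} (hx : x ∈ box N)
    (hz : z ∈ box N ×ˢ box (N ^ 2)) : ord x z ∈ box (4 * N ^ 2) := by
  obtain ⟨hs, ht⟩ := Finset.mem_product.1 hz
  rw [mem_box] at hx hs ht ⊢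
  obtain ⟨⟨x1, x2⟩, ⟨x3, x4⟩⟩ := hx
  obtain ⟨⟨s1, s2⟩, ⟨s3, s4⟩⟩ := hs
  obtain ⟨⟨t1, t2⟩, ⟨t3, t4⟩⟩ := ht
  simp only [ord]
  push_cast at t2 t4 ⊢
  have m1 := mul_nonneg s1 x1
  have m2 := mul_nonneg s3 x3
  have m3 := mul_nonneg s1 x3
  have m4 := mul_nonneg s3 x1
  have u1 : z.1.1 * x.1 ≤ (N : ℤ) ^ 2 := by nlinarith
  have u2 : z.1.2 * x.2 ≤ (N : ℤ) ^ 2 := by nlinarith
  have u3 : z.1.1 * x.2 ≤ (N : ℤ) ^ 2 := by nlinarith
  have u4 : z.1.2 * x.1 ≤ (N : ℤ) ^ 2 := by nlinarith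
  refine ⟨⟨by nlinarith, by nlinarith⟩, ⟨by nlinarith, by nlinarith⟩⟩

theorem inc_bound (N : ℕ) : N ^ 8 ≤ incidences (PP N) (LL N) := by
  classical
  have hfin : {z : Plane × Set Plane | z.1 ∈ PP N ∧ z.2 ∈ LL N ∧ z.1 ∈ z.2}.Finite := by
    apply Set.Finite.subset (PP N ×ˢ LL N).finite_toSet
    rintro z ⟨h1, h2, -⟩
    exact Finset.mem_coe.2 (Finset.mem_product.2 ⟨h1, h2⟩)
  let F : (ℤ × ℤ) × ((ℤ × ℤ) × (ℤ × ℤ)) → Plane × Set Plane :=
    fun w => (pt (w.1, ord w.1 w.2), ln w.2)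
  have hF : Function.Injective F := by
    rintro ⟨x, z⟩ ⟨x', z'⟩ h
    have h1 := ln_inj (congrArg Prod.snd h)
    have h2 := pt_inj (congrArg Prod.fst h)
    simp only at h1 h2
    simp only [Prod.mk.injEq] at h2
    exact Prod.ext h2.1 h1
  have hcard : ((box N ×ˢ (box N ×ˢ box (N ^ 2))).image F).card = N ^ 8 := by
    rw [Finset.card_image_of_injective _ hF, Finset.card_product, Finset.card_product, card_box,
      card_box]
    ring
  rw [incidences, ← hcard, ← Set.ncard_coe_finset]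
  apply Set.ncard_le_ncard _ hfin
  intro w hw
  obtain ⟨⟨x, z⟩, hxz, rfl⟩ := Finset.mem_image.1 (Finset.mem_coe.1 hw)
  obtain ⟨hx, hz⟩ := Finset.mem_product.1 hxz
  refine ⟨?_, ?_, ?_⟩
  · exact Finset.mem_image_of_mem _ (Finset.mem_product.2 ⟨hx, ord_mem hx hz⟩)
  · exact Finset.mem_image_of_mem _ hz
  · change e (ord x z).1 (ord x z).2 = e z.1.1 z.1.2 * e x.1 x.2 + e z.2.1 z.2.2
    exact ord_eq x z

theorem no_a {c : ℝ} {N : ℕ} (hN : 2 < c * N) {P' : Finset Plane} (hP' : P' ⊆ PP N)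
    (hc : c * (PP N).card ≤ P'.card) {s : ℝ} (h : InLatticeSection P' s) : False := by
  classical
  have hN0 : 0 < N := by
    rcases Nat.eq_zero_or_pos N with h0 | h0
    · subst h0; norm_num at hN
    · exact h0
  let Q := (box N ×ˢ box (4 * N ^ 2)).filter (fun z => pt z ∈ P')
  have hQ : P' ⊆ Q.image pt := by
    intro p hp
    obtain ⟨z, hz, rfl⟩ := Finset.mem_image.1 (hP' hp)
    exact Finset.mem_image_of_mem _ (Finset.mem_filter.2 ⟨hz, hp⟩)
  have h1 : P'.card ≤ Q.card := (Finset.card_le_card hQ).trans Finset.card_image_le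
  have h2 := dense_fails h N (box (4 * N ^ 2)) (fun y => e y.1 y.2) Q (Finset.filter_subset _ _)
    (fun z hz => (Finset.mem_filter.1 hz).2)
  rw [card_box] at h2
  rw [card_PP] at hc
  have h3 : (P'.card : ℝ) ≤ 2 * N * (4 * N ^ 2 * (4 * N ^ 2)) := by exact_mod_cast h1.trans h2
  push_cast at hc
  have h4 : 0 < (N : ℝ) := by exact_mod_cast hN0
  have h5 : c * N * (16 * (N : ℝ) ^ 5) ≤ 2 * (16 * (N : ℝ) ^ 5) := by nlinarith
  have h6 : 0 < 16 * (N : ℝ) ^ 5 := by positivity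
  have := le_of_mul_le_mul_right h5 h6
  linarith

theorem no_b {c : ℝ} {N : ℕ} (hN : 2 < c * N) {D : Finset Plane} (hD : ∀ d ∈ D, dualLine d ∈ LL N)
    (hc : c * (LL N).card ≤ D.card) {s : ℝ} (h : InLatticeSection D s) : False := by
  classical
  have hN0 : 0 < N := by
    rcases Nat.eq_zero_or_pos N with h0 | h0
    · subst h0; norm_num at hN
    · exact h0
  let g : (ℤ × ℤ) × (ℤ × ℤ) → Plane := fun z => (e z.1.1 z.1.2, -e z.2.1 z.2.2)
  let Q := (box N ×ˢ box (N ^ 2)).filter (fun z => g z ∈ D)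
  have hQ : D ⊆ Q.image g := by
    intro d hd
    obtain ⟨z, hz, hzd⟩ := Finset.mem_image.1 (hD d hd)
    have h1 : {p : Plane | p.2 = e z.1.1 z.1.2 * p.1 + e z.2.1 z.2.2} =
        {p : Plane | p.2 = d.1 * p.1 + (-d.2)} := hzd
    obtain ⟨h2, h3⟩ := slope_eq h1
    have h4 : g z = d := by
      apply Prod.ext
      · exact h2
      · change -e z.2.1 z.2.2 = d.2
        rw [h3]; ring
    rw [← h4]
    refine Finset.mem_image_of_mem _ (Finset.mem_filter.2 ⟨hz, ?_⟩)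
    rw [h4]; exact hd
  have h1 : D.card ≤ Q.card := (Finset.card_le_card hQ).trans Finset.card_image_le
  have h2 := dense_fails h N (box (N ^ 2)) (fun y => -e y.1 y.2) Q (Finset.filter_subset _ _)
    (fun z hz => (Finset.mem_filter.1 hz).2)
  rw [card_box] at h2
  rw [card_LL] at hc
  have h3 : (D.card : ℝ) ≤ 2 * N * (N ^ 2 * N ^ 2) := by exact_mod_cast h1.trans h2
  push_cast at hc
  have h4 : 0 < (N : ℝ) := by exact_mod_cast hN0
  have h5 : c * N * ((N : ℝ) ^ 5) ≤ 2 * ((N : ℝ) ^ 5) := by nlinarith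
  have h6 : 0 < (N : ℝ) ^ 5 := by positivity
  have := le_of_mul_le_mul_right h5 h6
  linarith

theorem power_bound (N : ℕ) :
    (1 / 7 : ℝ) * ((16 * N ^ 6 : ℕ) : ℝ) ^ (2 / 3 : ℝ) * ((N ^ 6 : ℕ) : ℝ) ^ (2 / 3 : ℝ) ≤
      (N : ℝ) ^ 8 := by
  have hN : (0 : ℝ) ≤ N := Nat.cast_nonneg N
  have key : ∀ x y : ℝ, 0 ≤ x → 0 ≤ y → x ^ 2 ≤ y ^ 3 → x ^ (2 / 3 : ℝ) ≤ y := by
    intro x y hx hy h
    have h1 : (x ^ 2) ^ (1 / 3 : ℝ) ≤ (y ^ 3) ^ (1 / 3 : ℝ) :=
      Real.rpow_le_rpow (by positivity) h (by norm_num)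
    have h2 : (x ^ 2) ^ (1 / 3 : ℝ) = x ^ (2 / 3 : ℝ) := by
      rw [← Real.rpow_natCast x 2, ← Real.rpow_mul hx]; norm_num
    have h3 : (y ^ 3) ^ (1 / 3 : ℝ) = y := by
      rw [← Real.rpow_natCast y 3, ← Real.rpow_mul hy]; norm_num
    rwa [h2, h3] at h1
  have h1 : ((16 * N ^ 6 : ℕ) : ℝ) ^ (2 / 3 : ℝ) ≤ 7 * (N : ℝ) ^ 4 := by
    apply key _ _ (by positivity) (by positivity)
    push_cast
    have : (0 : ℝ) ≤ (N : ℝ) ^ 12 := by positivity
    nlinarith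
  have h2 : ((N ^ 6 : ℕ) : ℝ) ^ (2 / 3 : ℝ) ≤ (N : ℝ) ^ 4 := by
    apply key _ _ (by positivity) (by positivity)
    push_cast
    apply le_of_eq; ring
  calc (1 / 7 : ℝ) * ((16 * N ^ 6 : ℕ) : ℝ) ^ (2 / 3 : ℝ) * ((N ^ 6 : ℕ) : ℝ) ^ (2 / 3 : ℝ)
      ≤ (1 / 7 : ℝ) * (7 * (N : ℝ) ^ 4) * (N : ℝ) ^ 4 := by gcongr
    _ = (N : ℝ) ^ 8 := by ring

/-- The negated form of Q1. The constant `C` may even be chosen after the configuration. -/
theorem result : ∃ C₁ c₂ c₃ : ℝ, 0 < C₁ ∧ 0 < c₂ ∧ 0 < c₃ ∧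
    ∀ c : ℝ, 0 < c → ∀ N : ℕ, ∃ m n : ℕ, N ≤ m ∧ N ≤ n ∧
      c₂ * Real.sqrt n ≤ m ∧ (m : ℝ) ≤ C₁ * (n : ℝ) ^ 2 ∧
      ∃ (P : Finset Plane) (L : Finset (Set Plane)), (∀ l ∈ L, IsLine l) ∧
        P.card = m ∧ L.card = n ∧
        c₃ * (m : ℝ) ^ (2 / 3 : ℝ) * (n : ℝ) ^ (2 / 3 : ℝ) ≤ incidences P L ∧
        ∀ C : ℝ, ¬ HasLatticeStructure c C P L := by
  refine ⟨16, 1, 1 / 7, by norm_num, by norm_num, by norm_num, ?_⟩
  intro c hc N₀
  obtain ⟨k, hk⟩ := exists_nat_gt (2 / c)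
  set N := max (max N₀ 1) k with hN
  have hN1 : 1 ≤ N := le_trans (le_max_right N₀ 1) (le_max_left _ _)
  have hN0 : N₀ ≤ N := le_trans (le_max_left N₀ 1) (le_max_left _ _)
  have hNk : k ≤ N := le_max_right _ _
  have hcN : 2 < c * N := by
    have h1 : 2 / c < N := lt_of_lt_of_le hk (by exact_mod_cast hNk)
    rw [div_lt_iff₀ hc] at h1
    linarith
  have hpow : N ≤ N ^ 6 := Nat.le_self_pow (by norm_num) N
  have hR : (1 : ℝ) ≤ N := by exact_mod_cast hN1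
  refine ⟨16 * N ^ 6, N ^ 6, by omega, by omega, ?_, ?_, PP N, LL N, ?_, card_PP N, card_LL N,
    ?_, ?_⟩
  · push_cast
    rw [one_mul, show (N : ℝ) ^ 6 = ((N : ℝ) ^ 3) ^ 2 by ring, Real.sqrt_sq (by positivity)]
    have h1 : (1 : ℝ) ≤ (N : ℝ) ^ 3 := one_le_pow₀ hR
    nlinarith
  · push_cast
    have h1 : (1 : ℝ) ≤ (N : ℝ) ^ 6 := one_le_pow₀ hR
    nlinarith
  · intro l hl
    classical
    obtain ⟨z, -, rfl⟩ := Finset.mem_image.1 hl
    exact isLine_ln z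
  · refine (power_bound N).trans ?_
    exact_mod_cast inc_bound N
  · rintro C (⟨P', hP', h1, h2⟩ | ⟨D, hD, h1, h2⟩)
    · exact no_a hcN hP' h1 h2
    · exact no_b hcN hD h1 h2

end Pool.Agent.Results.MP_fad2aa_co.NoLatticeStructure
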